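import Mathlib
import Pool.Agent.Helper509.Polar
import Pool.Agent.Y245.SC.Stm

/-!
The formula of Green in the unit disc for products of a holomorphic and an antiholomorphic
function, from the divergence theorem in polar coordinates.
-/

set_option autoImplicit false

open Complex MeasureTheory Metric Set Filter Topology ComplexConjugate

namespace Pool.Agent.Y50.SC

/-- the unit vector of angle `p.2` -/
noncomputable def E (p : ℝ × ℝ) : ℂ := cexp (p.2 * I)

/-- polar coordinates -/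
noncomputable def m (p : ℝ × ℝ) : ℂ := p.1 * E p

theorem m_eq (p : ℝ × ℝ) : m p = circleMap 0 p.1 p.2 := by
  simp [m, E, circleMap]

/-- derivative of `E` -/
noncomputable def E' (p : ℝ × ℝ) : ℝ × ℝ →L[ℝ] ℂ :=
  (E p * I) • (ofRealCLM.comp (ContinuousLinearMap.snd ℝ ℝ ℝ))

/-- derivative of `m` -/
noncomputable def m' (p : ℝ × ℝ) : ℝ × ℝ →L[ℝ] ℂ :=
  (p.1 : ℂ) • E' p + E p • (ofRealCLM.comp (ContinuousLinearMap.fst ℝ ℝ ℝ))

theorem hasFDerivAt_E (p : ℝ × ℝ) : HasFDerivAt E (E' p) p := by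
  have h1 : HasFDerivAt (fun q : ℝ × ℝ => (q.2 : ℂ))
      (ofRealCLM.comp (ContinuousLinearMap.snd ℝ ℝ ℝ)) p :=
    (ofRealCLM.comp (ContinuousLinearMap.snd ℝ ℝ ℝ)).hasFDerivAt
  have h2 : HasDerivAt (fun z : ℂ => cexp (z * I)) (cexp (p.2 * I) * I) (p.2 : ℂ) := by
    have := (hasDerivAt_id (p.2 : ℂ)).mul_const I
    simpa using this.cexp
  exact HasDerivAt.comp_hasFDerivAt (h₂ := fun z : ℂ => cexp (z * I)) p h2 h1

theorem hasFDerivAt_m (p : ℝ × ℝ) : HasFDerivAt m (m' p) p := by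
  have h1 : HasFDerivAt (fun q : ℝ × ℝ => (q.1 : ℂ))
      (ofRealCLM.comp (ContinuousLinearMap.fst ℝ ℝ ℝ)) p :=
    (ofRealCLM.comp (ContinuousLinearMap.fst ℝ ℝ ℝ)).hasFDerivAt
  exact h1.mul (hasFDerivAt_E p)

theorem E'_10 (p : ℝ × ℝ) : E' p (1, 0) = 0 := by simp [E']

theorem E'_01 (p : ℝ × ℝ) : E' p (0, 1) = E p * I := by simp [E']

theorem m'_10 (p : ℝ × ℝ) : m' p (1, 0) = E p := by simp [m', E'_10]

theorem m'_01 (p : ℝ × ℝ) : m' p (0, 1) = p.1 * (E p * I) := by simp [m', E'_01]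

theorem norm_E (p : ℝ × ℝ) : ‖E p‖ = 1 := norm_exp_ofReal_mul_I _

theorem E_mul_conj (p : ℝ × ℝ) : E p * conj (E p) = 1 := by
  rw [mul_conj, normSq_eq_norm_sq, norm_E]
  simp

theorem continuous_E : Continuous E :=
  continuous_iff_continuousAt.2 fun p => (hasFDerivAt_E p).continuousAt

theorem continuous_m : Continuous m :=
  continuous_iff_continuousAt.2 fun p => (hasFDerivAt_m p).continuousAt

theorem norm_m (p : ℝ × ℝ) : ‖m p‖ = |p.1| := by
  rw [m, norm_mul, norm_E, mul_one, norm_real, Real.norm_eq_abs]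

/-- derivative along polar coordinates of a product -/
noncomputable def P' (A B : ℂ → ℂ) (p : ℝ × ℝ) : ℝ × ℝ →L[ℝ] ℂ :=
  A (m p) • ((conjCLE : ℂ →L[ℝ] ℂ).comp (deriv B (m p) • m' p)) +
    conj (B (m p)) • (deriv A (m p) • m' p)

theorem hasFDerivAt_P {A B : ℂ → ℂ} {p : ℝ × ℝ} (hA : DifferentiableAt ℂ A (m p))
    (hB : DifferentiableAt ℂ B (m p)) :
    HasFDerivAt (fun q => A (m q) * conj (B (m q))) (P' A B p) p := by
  have h1 : HasFDerivAt (fun q => A (m q)) (deriv A (m p) • m' p) p :=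
    hA.hasDerivAt.comp_hasFDerivAt p (hasFDerivAt_m p)
  have h2 : HasFDerivAt (fun q => B (m q)) (deriv B (m p) • m' p) p :=
    hB.hasDerivAt.comp_hasFDerivAt p (hasFDerivAt_m p)
  have h3 : HasFDerivAt (fun q => conj (B (m q)))
      ((conjCLE : ℂ →L[ℝ] ℂ).comp (deriv B (m p) • m' p)) p :=
    (conjCLE : ℂ →L[ℝ] ℂ).hasFDerivAt.comp p h2
  exact h1.mul h3

theorem P'_apply (A B : ℂ → ℂ) (p v : ℝ × ℝ) :
    P' A B p v = A (m p) * conj (deriv B (m p) * m' p v) +
      conj (B (m p)) * (deriv A (m p) * m' p v) := by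
  simp [P']

theorem green (r : ℝ) (A B : ℂ → ℂ) (hr : 1 < r) (hA : DifferentiableOn ℂ A (ball 0 r))
    (hB : DifferentiableOn ℂ B (ball 0 r)) :
    2 * I * ∫ w in ball (0 : ℂ) 1, A w * conj (deriv B w) = ∮ w in C(0, 1), A w * conj (B w) := by
  have hpi : -Real.pi ≤ Real.pi := by linarith [Real.pi_pos]
  have hmem : ∀ p ∈ Icc (0 : ℝ) 1 ×ˢ Icc (-Real.pi) Real.pi, m p ∈ ball (0 : ℂ) r := by
    rintro p ⟨hp, -⟩
    rw [mem_ball_zero_iff, norm_m, abs_of_nonneg hp.1]
    exact hp.2.trans_lt hr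
  have hAat : ∀ z ∈ ball (0 : ℂ) r, DifferentiableAt ℂ A z := fun z hz =>
    hA.differentiableAt (isOpen_ball.mem_nhds hz)
  have hBat : ∀ z ∈ ball (0 : ℂ) r, DifferentiableAt ℂ B z := fun z hz =>
    hB.differentiableAt (isOpen_ball.mem_nhds hz)
  have hB' : DifferentiableOn ℂ (deriv B) (ball 0 r) := hB.deriv isOpen_ball
  have hPc : ContinuousOn (fun q => A (m q) * conj (B (m q)))
      (Icc (0 : ℝ) 1 ×ˢ Icc (-Real.pi) Real.pi) := by
    refine (hA.continuousOn.comp continuous_m.continuousOn hmem).mul ?_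
    exact continuous_conj.comp_continuousOn
      (hB.continuousOn.comp continuous_m.continuousOn hmem)
  have hGc : ContinuousOn (fun q : ℝ × ℝ => 2 * I * (q.1 * (A (m q) * conj (deriv B (m q)))))
      (Icc (0 : ℝ) 1 ×ˢ Icc (-Real.pi) Real.pi) := by
    refine continuousOn_const.mul (ContinuousOn.mul ?_ (ContinuousOn.mul ?_ ?_))
    · exact (continuous_ofReal.comp continuous_fst).continuousOn
    · exact hA.continuousOn.comp continuous_m.continuousOn hmem
    · exact continuous_conj.comp_continuousOn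
        (hB'.continuousOn.comp continuous_m.continuousOn hmem)
  have hGi : IntegrableOn (fun q : ℝ × ℝ => 2 * I * (q.1 * (A (m q) * conj (deriv B (m q)))))
      (Icc (0 : ℝ) 1 ×ˢ Icc (-Real.pi) Real.pi) :=
    hGc.integrableOn_compact (isCompact_Icc.prod isCompact_Icc)
  set f : ℝ × ℝ → ℂ := fun q => A (m q) * conj (B (m q)) * (I * m q) with hf
  set g : ℝ × ℝ → ℂ := fun q => A (m q) * conj (B (m q)) * (-E q) with hg
  set f' : ℝ × ℝ → ℝ × ℝ →L[ℝ] ℂ := fun p =>
    (A (m p) * conj (B (m p))) • (I • m' p) + (I * m p) • P' A B p with hf'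
  set g' : ℝ × ℝ → ℝ × ℝ →L[ℝ] ℂ := fun p =>
    (A (m p) * conj (B (m p))) • (-E' p) + (-E p) • P' A B p with hg'
  have hfd : ∀ p ∈ Icc (0 : ℝ) 1 ×ˢ Icc (-Real.pi) Real.pi, HasFDerivAt f (f' p) p := by
    intro p hp
    exact (hasFDerivAt_P (hAat _ (hmem p hp)) (hBat _ (hmem p hp))).mul
      ((hasFDerivAt_m p).const_mul I)
  have hgd : ∀ p ∈ Icc (0 : ℝ) 1 ×ˢ Icc (-Real.pi) Real.pi, HasFDerivAt g (g' p) p := by
    intro p hp
    exact (hasFDerivAt_P (hAat _ (hmem p hp)) (hBat _ (hmem p hp))).mul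
      (hasFDerivAt_E p).neg
  have hdiv : ∀ p : ℝ × ℝ, f' p (1, 0) + g' p (0, 1) =
      2 * I * (p.1 * (A (m p) * conj (deriv B (m p)))) := by
    intro p
    have e := E_mul_conj p
    simp only [hf', hg', _root_.add_apply, _root_.smul_apply,
      _root_.neg_apply, P'_apply, m'_10, m'_01, E'_01, smul_eq_mul, map_mul, conj_I,
      conj_ofReal]
    have hm : m p = p.1 * E p := rfl
    generalize hAA : A (m p) = a
    generalize hBB : conj (B (m p)) = b
    generalize hAA' : deriv A (m p) = a'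
    generalize hBB' : conj (deriv B (m p)) = b'
    rw [hm]
    linear_combination (2 * I * p.1 * a * b') * e
  have hdv := integral2_divergence_prod_of_hasFDerivAt_off_countable f g f' g' 0 (-Real.pi) 1
    Real.pi ∅ countable_empty
    (by
      rw [uIcc_of_le zero_le_one, uIcc_of_le hpi]
      exact fun p hp => (hfd p hp).continuousAt.continuousWithinAt)
    (by
      rw [uIcc_of_le zero_le_one, uIcc_of_le hpi]
      exact fun p hp => (hgd p hp).continuousAt.continuousWithinAt)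
    (by
      rw [min_eq_left zero_le_one, max_eq_right zero_le_one, min_eq_left hpi, max_eq_right hpi]
      rintro p ⟨⟨hp1, hp2⟩, -⟩
      exact hfd p ⟨Ioo_subset_Icc_self hp1, Ioo_subset_Icc_self hp2⟩)
    (by
      rw [min_eq_left zero_le_one, max_eq_right zero_le_one, min_eq_left hpi, max_eq_right hpi]
      rintro p ⟨⟨hp1, hp2⟩, -⟩
      exact hgd p ⟨Ioo_subset_Icc_self hp1, Ioo_subset_Icc_self hp2⟩)
    (by
      rw [uIcc_of_le zero_le_one, uIcc_of_le hpi]
      simp only [hdiv]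
      exact hGi)
  simp only [hdiv] at hdv
  -- the left side
  have hL : 2 * I * ∫ w in ball (0 : ℂ) 1, A w * conj (deriv B w) =
      ∫ x in (0 : ℝ)..1, ∫ y in (-Real.pi)..Real.pi,
        2 * I * (((x, y).1 : ℂ) * (A (m (x, y)) * conj (deriv B (m (x, y))))) := by
    have hGi' : IntegrableOn
        (fun q : ℝ × ℝ => 2 * I * (q.1 * (A (m q) * conj (deriv B (m q)))))
        (Ioc (0 : ℝ) 1 ×ˢ Ioc (-Real.pi) Real.pi) :=
      hGi.mono_set (prod_mono Ioc_subset_Icc_self Ioc_subset_Icc_self)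
    rw [Pool.Agent.Helper509.Polar.integral_ball_prod, ← integral_const_mul]
    have hae : (Ioo (0 : ℝ) 1 ×ˢ Ioo (-Real.pi) Real.pi : Set (ℝ × ℝ)) =ᵐ[volume]
        (Ioc (0 : ℝ) 1 ×ˢ Ioc (-Real.pi) Real.pi : Set (ℝ × ℝ)) :=
      Measure.set_prod_ae_eq Ioo_ae_eq_Ioc Ioo_ae_eq_Ioc
    rw [setIntegral_congr_set hae]
    have he : (fun p : ℝ × ℝ => 2 * I * ((p.1 : ℝ) • (A (circleMap 0 p.1 p.2) *
        conj (deriv B (circleMap 0 p.1 p.2))))) =
        fun q : ℝ × ℝ => 2 * I * (q.1 * (A (m q) * conj (deriv B (m q)))) := by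
      funext p
      rw [m_eq, real_smul]
    rw [he, Measure.volume_eq_prod, setIntegral_prod _ (by rwa [← Measure.volume_eq_prod]),
      intervalIntegral.integral_of_le zero_le_one]
    refine setIntegral_congr_fun measurableSet_Ioc fun x _ => ?_
    simp only
    rw [intervalIntegral.integral_of_le hpi]
  rw [hL, hdv]
  -- boundary terms
  have hg0 : ∀ x : ℝ, g (x, Real.pi) = g (x, -Real.pi) := by
    intro x
    have hE : E (x, Real.pi) = E (x, -Real.pi) := by
      simp only [E]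
      push_cast
      rw [neg_mul, exp_neg, exp_pi_mul_I]
      norm_num
    have hm : m (x, Real.pi) = m (x, -Real.pi) := by
      simp only [m]
      rw [hE]
    simp only [hg]
    rw [hE, hm]
  have hf0 : ∀ y : ℝ, f (0, y) = 0 := by
    intro y
    have hm : m (0, y) = 0 := by simp [m]
    simp only [hf]
    rw [hm]
    simp
  simp only [hg0, hf0, intervalIntegral.integral_zero, sub_self, zero_add, sub_zero]
  rw [circleIntegral]
  have hper : (fun θ : ℝ => f (1, θ)).Periodic (2 * Real.pi) := by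
    intro θ
    simp only [hf, m_eq]
    rw [periodic_circleMap]
  have h2 := hper.intervalIntegral_add_eq (-Real.pi) 0
  rw [zero_add, show -Real.pi + 2 * Real.pi = Real.pi by ring] at h2
  rw [h2]
  refine intervalIntegral.integral_congr fun θ _ => ?_
  simp only [hf, m_eq, deriv_circleMap, smul_eq_mul]
  ring

theorem disc : Pool.Agent.Y245.SC.S_DISC := fun r A B hr hA hB => green r A B hr hA hB

end Pool.Agent.Y50.SC
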